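import Mathlib

set_option autoImplicit false

namespace Pool.Agent.W853.WA

open MeasureTheory Complex

theorem nz {x u : ℂ} (hx : ‖x‖ < 1) (hu : ‖u‖ = 1) : 1 + x * u ≠ 0 := by
  intro h
  have h1 : x * u = -1 := by linear_combination h
  have h2 : ‖x * u‖ = 1 := by rw [h1, norm_neg, norm_one]
  rw [norm_mul, hu, mul_one] at h2
  linarith

theorem int_pos {x : ℂ} (hx : ‖x‖ < 1) :
    ∫ θ in (0 : ℝ)..2 * Real.pi, 1 / (1 + x * exp (θ * I)) = 2 * Real.pi := by
  have h1 : DiffContOnCl ℂ (fun z : ℂ => 1 / (1 + x * z)) (Metric.ball 0 |1|) := by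
    rw [abs_one]
    have hd : DifferentiableOn ℂ (fun z : ℂ => 1 / (1 + x * z)) (Metric.closedBall 0 1) := by
      intro z hz
      have hz' : ‖z‖ ≤ 1 := by simpa using hz
      have hne : 1 + x * z ≠ 0 := by
        intro h
        have h1 : x * z = -1 := by linear_combination h
        have h2 : ‖x * z‖ = 1 := by rw [h1, norm_neg, norm_one]
        rw [norm_mul] at h2
        have := norm_nonneg x
        nlinarith
      apply DifferentiableAt.differentiableWithinAt
      fun_prop (disch := exact hne)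
    exact hd.diffContOnCl_ball (Metric.closedBall_subset_closedBall le_rfl)
  have h2 := h1.circleAverage
  rw [Real.circleAverage_def] at h2
  simp only [mul_zero, add_zero, circleMap, zero_add, ofReal_one, one_mul, div_one] at h2
  have h3 : (2 * Real.pi : ℝ) ≠ 0 := by positivity
  rw [inv_smul_eq_iff₀ h3] at h2
  simp only [one_div] at h2 ⊢
  rw [h2]
  simp

theorem int_neg {x : ℂ} (hx : ‖x‖ < 1) :
    ∫ θ in (0 : ℝ)..2 * Real.pi, 1 / (1 + x * exp (-(θ * I))) = 2 * Real.pi := by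
  have h1 := intervalIntegral.integral_comp_neg (a := 0) (b := 2 * Real.pi)
    (fun θ : ℝ => 1 / (1 + x * exp (θ * I)))
  have h2 : ∫ θ in (0 : ℝ)..2 * Real.pi, 1 / (1 + x * exp (-(θ * I)))
      = ∫ θ in (0 : ℝ)..2 * Real.pi, 1 / (1 + x * exp (((-θ : ℝ) : ℂ) * I)) := by
    congr 1
    ext θ
    push_cast
    rw [neg_mul]
  rw [h2, h1]
  have hp : Function.Periodic (fun θ : ℝ => 1 / (1 + x * exp (θ * I))) (2 * Real.pi) := by
    intro θ
    have : exp (((θ + 2 * Real.pi : ℝ) : ℂ) * I) = exp (θ * I) := by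
      push_cast
      rw [add_mul, Complex.exp_add, Complex.exp_two_pi_mul_I, mul_one]
    simp only [this]
  have h3 := hp.intervalIntegral_add_eq (-(2 * Real.pi)) 0
  rw [neg_add_cancel, zero_add] at h3
  rw [neg_zero, h3, int_pos hx]

theorem pw {x p q c : ℂ} (hx0 : x ≠ 0) (hp : p ≠ 0) (hq : q ≠ 0)
    (h1 : p * q = 1 + x ^ 2 + 2 * x * c) (h2 : p + q = 2 + 2 * x * c) :
    (1 - c ^ 2) / (1 + x ^ 2 + 2 * x * c) =
      (-(1 - x ^ 2) * (1 / p + 1 / q - 1) + (1 + x ^ 2) - 2 * x * c) / (4 * x ^ 2) := by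
  rw [← h1]
  have h3 : 1 / p + 1 / q - 1 = (1 - x ^ 2) / (p * q) := by
    have : (1 - x ^ 2) = p + q - p * q := by rw [h1, h2]; ring
    rw [this]
    field_simp
    ring
  rw [h3]
  have hpq : p * q ≠ 0 := mul_ne_zero hp hq
  have h4 : (1 - c ^ 2) * (4 * x ^ 2) = -(1 - x ^ 2) * (1 - x ^ 2) + (1 + x ^ 2 - 2 * x * c) * (p * q) := by
    rw [h1]; ring
  rw [div_eq_div_iff hpq (by simpa using hx0)]
  rw [h4]
  field_simp
  ring

theorem int_main {x : ℂ} (hx : ‖x‖ < 1) (hx0 : x ≠ 0) :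
    ∫ θ in (0 : ℝ)..2 * Real.pi, (1 - (Real.cos θ : ℂ) ^ 2) / (1 + x ^ 2 + 2 * x * (Real.cos θ : ℂ))
      = (Real.pi : ℂ) := by
  have nu : ∀ θ : ℝ, ‖exp (θ * I)‖ = 1 := Complex.norm_exp_ofReal_mul_I
  have nu' : ∀ θ : ℝ, ‖exp (-(θ * I))‖ = 1 := by
    intro θ
    have := nu (-θ)
    push_cast at this
    rwa [neg_mul] at this
  have e1 : ∀ θ : ℝ, (1 - (Real.cos θ : ℂ) ^ 2) / (1 + x ^ 2 + 2 * x * (Real.cos θ : ℂ)) =
      (-(1 - x ^ 2) * (1 / (1 + x * exp (θ * I)) + 1 / (1 + x * exp (-(θ * I))) - 1)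
        + (1 + x ^ 2) - 2 * x * (Real.cos θ : ℂ)) / (4 * x ^ 2) := by
    intro θ
    have hc : 2 * (Real.cos θ : ℂ) = exp (θ * I) + exp (-(θ * I)) := by
      rw [Complex.ofReal_cos, Complex.two_cos, neg_mul]
    have hm : exp (θ * I) * exp (-(θ * I)) = 1 := by
      rw [← Complex.exp_add, add_neg_cancel, Complex.exp_zero]
    apply pw hx0 (nz hx (nu θ)) (nz hx (nu' θ))
    · linear_combination x ^ 2 * hm - x * hc
    · linear_combination - x * hc
  simp only [e1]
  have i1 : IntervalIntegrable (fun θ : ℝ => 1 / (1 + x * exp (θ * I))) volume 0 (2 * Real.pi) := by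
    apply Continuous.intervalIntegrable
    have hc : Continuous fun θ : ℝ => 1 + x * exp (θ * I) := by fun_prop
    exact continuous_const.div hc fun θ => nz hx (nu θ)
  have i2 : IntervalIntegrable (fun θ : ℝ => 1 / (1 + x * exp (-(θ * I)))) volume 0
      (2 * Real.pi) := by
    apply Continuous.intervalIntegrable
    have hc : Continuous fun θ : ℝ => 1 + x * exp (-(θ * I)) := by fun_prop
    exact continuous_const.div hc fun θ => nz hx (nu' θ)
  have i3 : IntervalIntegrable (fun θ : ℝ => (Real.cos θ : ℂ)) volume 0 (2 * Real.pi) := by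
    apply Continuous.intervalIntegrable
    fun_prop
  have i0 : ∀ c : ℂ, IntervalIntegrable (fun θ : ℝ => c) volume 0 (2 * Real.pi) :=
    fun c => intervalIntegrable_const
  rw [intervalIntegral.integral_div, intervalIntegral.integral_sub, intervalIntegral.integral_add,
    intervalIntegral.integral_const_mul, intervalIntegral.integral_sub,
    intervalIntegral.integral_add i1 i2, int_pos hx, int_neg hx, intervalIntegral.integral_const_mul,
    intervalIntegral.integral_const, intervalIntegral.integral_const]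
  · have h0 : ∫ θ in (0 : ℝ)..2 * Real.pi, (Real.cos θ : ℂ) = 0 := by
      rw [intervalIntegral.integral_ofReal, integral_cos]
      simp
    rw [h0]
    simp only [sub_zero, Complex.real_smul, mul_zero]
    push_cast
    field_simp
    ring
  · exact i1.add i2
  · exact i0 _
  · exact ((i1.add i2).sub (i0 _)).const_mul _
  · exact i0 _
  · exact (((i1.add i2).sub (i0 _)).const_mul _).add (i0 _)
  · exact i3.const_mul _

/-- the semicircle integral -/
theorem exists_root (w : ℂ) (hw : w.im < 0) : ∃ x : ℂ, ‖x‖ < 1 ∧ x ≠ 0 ∧ x ^ 2 - 2 * w * x + 1 = 0 := by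
  obtain ⟨s, hs⟩ := IsAlgClosed.exists_pow_nat_eq (w ^ 2 - 1) (n := 2) (by norm_num)
  have key : ∀ t : ℂ, t ^ 2 - 2 * w * t + 1 = 0 → t ≠ 0 ∧ ‖t‖ ≠ 1 := by
    intro t ht
    have ht0 : t ≠ 0 := by
      rintro rfl
      norm_num at ht
    refine ⟨ht0, fun h1 => ?_⟩
    have h2 : t⁻¹ = (starRingEnd ℂ) t := by
      rw [Complex.inv_def, Complex.normSq_eq_norm_sq, h1]
      simp
    have h3 : 2 * w = t + t⁻¹ := by
      field_simp
      linear_combination -ht
    have h4 : (2 * w).im = 0 := by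
      rw [h3, h2, Complex.add_im, Complex.conj_im, add_neg_cancel]
    simp at h4
    linarith
  have h1 : (w - s) ^ 2 - 2 * w * (w - s) + 1 = 0 := by linear_combination hs
  have h2 : (w + s) ^ 2 - 2 * w * (w + s) + 1 = 0 := by linear_combination hs
  have h3 : (w - s) * (w + s) = 1 := by linear_combination -hs
  rcases lt_trichotomy ‖w - s‖ 1 with h | h | h
  · exact ⟨w - s, h, (key _ h1).1, h1⟩
  · exact absurd h (key _ h1).2
  · refine ⟨w + s, ?_, (key _ h2).1, h2⟩
    have h4 : ‖w - s‖ * ‖w + s‖ = 1 := by rw [← norm_mul, h3, norm_one]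
    by_contra h5
    push Not at h5
    nlinarith [norm_nonneg (w - s), norm_nonneg (w + s)]

theorem semi_int (w : ℂ) (hw : w.im < 0) : ∃ x : ℂ, ‖x‖ < 1 ∧ x ^ 2 - 2 * w * x + 1 = 0 ∧
    ∫ θ in (0 : ℝ)..2 * Real.pi,
      1 / (w + (Real.cos θ : ℂ)) * (((1 - Real.cos θ ^ 2) / Real.pi : ℝ) : ℂ) = 2 * x := by
  obtain ⟨x, hx, hx0, he⟩ := exists_root w hw
  refine ⟨x, hx, he, ?_⟩
  have hpi : (Real.pi : ℂ) ≠ 0 := by exact_mod_cast Real.pi_ne_zero
  have e1 : ∀ θ : ℝ, 1 / (w + (Real.cos θ : ℂ)) * (((1 - Real.cos θ ^ 2) / Real.pi : ℝ) : ℂ) =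
      (2 * x / Real.pi) *
        ((1 - (Real.cos θ : ℂ) ^ 2) / (1 + x ^ 2 + 2 * x * (Real.cos θ : ℂ))) := by
    intro θ
    have h1 : 1 + x ^ 2 + 2 * x * (Real.cos θ : ℂ) = 2 * x * (w + (Real.cos θ : ℂ)) := by
      linear_combination he
    have h2 : w + (Real.cos θ : ℂ) ≠ 0 := by
      intro h
      have := congrArg Complex.im h
      simp only [Complex.add_im, Complex.ofReal_im, add_zero, Complex.zero_im] at this
      linarith
    rw [h1]
    push_cast
    field_simp
  simp only [e1]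
  rw [intervalIntegral.integral_const_mul, int_main hx hx0]
  field_simp

end Pool.Agent.W853.WA
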