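import Pool.Agent.W792.WA.Stm
import Pool.Agent.W853.WA.Semi1

set_option autoImplicit false

namespace Pool.Agent.W853.WA

open MeasureTheory Filter Pool.Agent.W792.LL Pool.Agent.W792.WA
open scoped Topology

/-- the distribution function -/
noncomputable def Ph (θ : ℝ) : ℝ := (θ - Real.sin (2 * θ) / 2) / (2 * Real.pi)

theorem Ph_cont : Continuous Ph := by
  unfold Ph
  fun_prop

theorem Ph_mono : StrictMono Ph := by
  intro a b hab
  unfold Ph
  have h0 : 0 < 2 * Real.pi := by positivity
  apply div_lt_div_of_pos_right _ h0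
  have h1 : Real.sin (2 * b) - Real.sin (2 * a) = 2 * (Real.cos (a + b) * Real.sin (b - a)) := by
    rw [Real.sin_sub_sin]
    have e1 : (2 * b - 2 * a) / 2 = b - a := by ring
    have e2 : (2 * b + 2 * a) / 2 = a + b := by ring
    rw [e1, e2]
    ring
  have h2 : |Real.sin (b - a)| < b - a := by
    have hp : 0 < b - a := by linarith
    rw [abs_lt]
    constructor
    · by_cases hh : b - a ≤ Real.pi
      · have := Real.sin_nonneg_of_nonneg_of_le_pi hp.le hh
        linarith
      · have := Real.neg_one_le_sin (b - a)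
        have := Real.pi_gt_three
        linarith
    · exact Real.sin_lt hp
  have h3 : |Real.cos (a + b) * Real.sin (b - a)| ≤ |Real.sin (b - a)| := by
    rw [abs_mul]
    have := Real.abs_cos_le_one (a + b)
    have := abs_nonneg (Real.sin (b - a))
    nlinarith
  have h4 := le_abs_self (Real.cos (a + b) * Real.sin (b - a))
  linarith

theorem Ph_surj : Function.Surjective Ph := by
  have h0 : 0 < 2 * Real.pi := by positivity
  apply Ph_cont.surjective
  · apply Filter.Tendsto.atTop_div_const h0
    refine tendsto_atTop_mono (f := fun θ : ℝ => θ + (-1)) ?_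
      (tendsto_atTop_add_const_right atTop (-1 : ℝ) tendsto_id)
    intro θ
    have := Real.sin_le_one (2 * θ)
    linarith
  · apply Filter.Tendsto.atBot_div_const h0
    refine tendsto_atBot_mono (f := fun θ : ℝ => θ + 1) ?_
      (tendsto_atBot_add_const_right atBot (1 : ℝ) tendsto_id)
    intro θ
    have := Real.neg_one_le_sin (2 * θ)
    linarith

theorem Ph_add (θ : ℝ) : Ph (θ + 2 * Real.pi) = Ph θ + 1 := by
  unfold Ph
  have h0 : (2 * Real.pi) ≠ 0 := by positivity
  have h1 : Real.sin (2 * (θ + 2 * Real.pi)) = Real.sin (2 * θ) := by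
    have e : 2 * (θ + 2 * Real.pi) = 2 * θ + (2 : ℕ) * (2 * Real.pi) := by push_cast; ring
    rw [e, Real.sin_add_nat_mul_two_pi]
  rw [h1]
  field_simp
  ring

theorem Ph_zero : Ph 0 = 0 := by
  unfold Ph
  simp

theorem Ph_two_pi : Ph (2 * Real.pi) = 1 := by
  have := Ph_add 0
  rwa [Ph_zero, zero_add, zero_add] at this

theorem Ph_deriv (θ : ℝ) : HasDerivAt Ph ((1 - Real.cos θ ^ 2) / Real.pi) θ := by
  have h1 : HasDerivAt (fun θ : ℝ => 2 * θ) (2 * 1) θ := (hasDerivAt_id θ).const_mul 2
  have h2 := ((hasDerivAt_id θ).sub ((h1.sin).div_const 2)).div_const (2 * Real.pi)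
  have h3 : (1 - Real.cos (2 * θ) * (2 * 1) / 2) / (2 * Real.pi) =
      (1 - Real.cos θ ^ 2) / Real.pi := by
    rw [Real.cos_two_mul]
    have := Real.pi_ne_zero
    field_simp
    ring
  rw [h3] at h2
  exact h2

/-- the homeomorphism -/
noncomputable def PhI : ℝ ≃o ℝ := Ph_mono.orderIsoOfSurjective Ph Ph_surj

theorem PhI_apply (θ : ℝ) : PhI θ = Ph θ := rfl

/-- the function on the line -/
noncomputable def psr (φ : ℝ) : ℝ := Real.cos (PhI.symm φ)

theorem psr_cont : Continuous psr := Real.continuous_cos.comp PhI.symm.continuous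

theorem psr_Ph (θ : ℝ) : psr (Ph θ) = Real.cos θ := by
  unfold psr
  rw [← PhI_apply, OrderIso.symm_apply_apply]

theorem psr_per : Function.Periodic psr 1 := by
  intro φ
  obtain ⟨θ, rfl⟩ := Ph_surj φ
  rw [← Ph_add, psr_Ph, psr_Ph, Real.cos_add_two_pi]

/-- the function on the circle -/
noncomputable def psc : C(UnitAddCircle, ℝ) where
  toFun := psr_per.lift
  continuous_toFun := by
    apply (QuotientAddGroup.isQuotientMap_mk (AddSubgroup.zmultiples (1 : ℝ))).continuous_iff.2
    exact psr_cont

theorem psc_coe (φ : ℝ) : psc (φ : UnitAddCircle) = psr φ := psr_per.lift_coe φ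

theorem t_semi : S_SEMI := by
  refine ⟨psc, ?_, ?_, ?_⟩
  · intro t
    obtain ⟨φ, rfl⟩ := QuotientAddGroup.mk_surjective t
    have := psc_coe φ
    rw [show psc (QuotientAddGroup.mk φ) = psr φ from this]
    exact Real.abs_cos_le_one _
  · intro a
    apply Set.Countable.measure_zero
    by_cases h : ∃ θ₀ : ℝ, Real.cos θ₀ = a
    · obtain ⟨θ₀, rfl⟩ := h
      apply Set.Countable.mono (s₂ := Set.range (fun k : ℤ => Ph (2 * k * Real.pi + θ₀)) ∪
        Set.range (fun k : ℤ => Ph (2 * k * Real.pi - θ₀)))
      · rintro φ ⟨-, hφ⟩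
        rw [psc_coe] at hφ
        obtain ⟨θ, rfl⟩ := Ph_surj φ
        rw [psr_Ph] at hφ
        obtain ⟨k, hk | hk⟩ := Real.cos_eq_cos_iff.1 hφ.symm
        · exact Or.inl ⟨k, by rw [hk]⟩
        · exact Or.inr ⟨k, by rw [hk]⟩
      · exact (Set.countable_range _).union (Set.countable_range _)
    · have : {φ : ℝ | φ ∈ Set.Ioc (0 : ℝ) 1 ∧ psc (φ : UnitAddCircle) = a} = ∅ := by
        ext φ
        simp only [Set.mem_ofPred_eq, Set.mem_empty_iff_false, iff_false, not_and]
        intro _ hφ
        rw [psc_coe] at hφ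
        exact h ⟨_, hφ⟩
      rw [this]
      exact Set.countable_empty
  · intro w hw
    obtain ⟨x, hx, he, hi⟩ := semi_int w hw
    have hI : ∫ φ in Set.Ioc (0 : ℝ) 1, 1 / (w + (psc (φ : UnitAddCircle) : ℂ)) = 2 * x := by
      rw [← intervalIntegral.integral_of_le zero_le_one]
      simp only [psc_coe]
      have hne : ∀ φ : ℝ, w + (psr φ : ℂ) ≠ 0 := by
        intro φ h
        have := congrArg Complex.im h
        simp only [Complex.add_im, Complex.ofReal_im, add_zero, Complex.zero_im] at this
        linarith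
      have hc : Continuous fun φ : ℝ => 1 / (w + (psr φ : ℂ)) := by
        apply continuous_const.div _ hne
        have := psr_cont
        fun_prop
      have h1 := intervalIntegral.integral_comp_smul_deriv (a := 0) (b := 2 * Real.pi) (f := Ph)
        (f' := fun θ => (1 - Real.cos θ ^ 2) / Real.pi) (g := fun φ : ℝ => 1 / (w + (psr φ : ℂ)))
        (fun θ _ => Ph_deriv θ) (by fun_prop) hc
      rw [Ph_zero, Ph_two_pi] at h1
      rw [← h1, ← hi]
      congr 1
      ext θ
      simp only [Function.comp_apply, psr_Ph, Complex.real_smul]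
      ring
    rw [hI]
    constructor
    · rw [norm_mul]
      have : ‖(2 : ℂ)‖ = 2 := by simp
      rw [this]
      linarith
    · linear_combination he

theorem main : Pool.Agent.W792.WA.S_SEMI := t_semi

end Pool.Agent.W853.WA
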